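import Pool.Agent.W626.FR.Main
import Pool.Agent.W626.FR.Joint
import Pool.Agent.W852.FG.Visits

/-!
# Phase transition of the frog model on every supercritical Galton-Watson tree

For every offspring law on the nonnegative integers with mean in `(1, ∞]`, the frog model with
Poisson numbers of sleeping particles on the Galton-Watson tree conditioned to be infinite is
transient at some positive density and recurrent at all large densities.
-/

namespace Pool.Agent.Results.MP_0cd4b8_pr.PhaseTransition

open MeasureTheory ProbabilityTheory FrogGW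
open scoped ENNReal NNReal

/-- The visits to the root by awake particles: all `((x, j), k)` such that the vertex `x` is
visited by an awake particle and the particle number `j` starting at `x` is at the root after `k`
steps of its walk. -/
def Visits (Z : Env) (ω : Conf) : Set ((List ℕ × ℕ) × ℕ) :=
  {q | Active Z ω q.1.1 ∧ q.1.2 < cnt q.1.1 (ω q.1.1) ∧
    walk Z q.1.1 ((ω q.1.1).2 q.1.2) q.2 = []}

/-- The joint law of the Galton-Watson tree of offspring law `p` conditioned to be infinite and of
the particles of density `mu`. -/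
noncomputable def Joint (p : Measure ℕ) (mu : ℝ≥0) : Measure (Env × Conf) :=
  (ProbabilityTheory.cond (GW p) Survive).prod (FM mu)

/-- Almost surely the root is visited only finitely often. -/
def TransientAt (p : Measure ℕ) (mu : ℝ≥0) : Prop :=
  ∀ᵐ q ∂(Joint p mu), (Visits q.1 q.2).Finite

/-- Almost surely the root is visited infinitely often. -/
def RecurrentAt (p : Measure ℕ) (mu : ℝ≥0) : Prop :=
  ∀ᵐ q ∂(Joint p mu), (Visits q.1 q.2).Infinite

theorem finite_meas : MeasurableSet {q : Env × Conf | (Visits q.1 q.2).Finite} :=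
  FrogRec.visits_meas

theorem result (p : Measure ℕ) [IsProbabilityMeasure p]
    (hp : 1 < ∫⁻ k, (k : ℝ≥0∞) ∂p) :
    MeasurableSet Survive ∧ GW p Survive ≠ 0 ∧ ∃ mu1 mu2 : ℝ≥0, 0 < mu1 ∧ mu1 < mu2 ∧
      TransientAt p mu1 ∧ ∀ mu, mu2 ≤ mu → RecurrentAt p mu := by
  obtain ⟨hm, h0, lam, hlam, hT⟩ := FrogGW.transient_visits p hp
  obtain ⟨mu0, hR⟩ := FrogRec.recurrence p hp
  refine ⟨hm, h0, lam, max mu0 (lam + 1), hlam, lt_max_of_lt_right (lt_add_one lam), ?_, ?_⟩
  · unfold TransientAt Joint
    rw [Measure.ae_prod_iff_ae_ae finite_meas]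
    exact hT
  · intro mu hmu
    unfold RecurrentAt Joint
    have hinf : MeasurableSet {q : Env × Conf | (Visits q.1 q.2).Infinite} := finite_meas.compl
    rw [Measure.ae_prod_iff_ae_ae hinf]
    unfold ProbabilityTheory.cond
    exact Measure.ae_smul_measure ((ae_restrict_iff' hm).2 (hR mu ((le_max_left _ _).trans hmu))) _

end Pool.Agent.Results.MP_0cd4b8_pr.PhaseTransition
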